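import Mathlib

set_option autoImplicit false

namespace Pool.Agent.Results.MP_67c2f3_gt.Counter

open Set Topology Filter

abbrev T : Type := AddCircle (1 : ℝ)

def sv {X : Type} [AddCommGroup X] [TopologicalSpace X] (v : ℕ → X →ₜ+ T) : Set X :=
  {x | Tendsto (fun n => v n x) atTop (𝓝 0)}

def TSeq {G : Type} [AddCommGroup G] (v : ℕ → G) : Prop :=
  ∃ t : TopologicalSpace G, @IsTopologicalAddGroup G t _ ∧ @T2Space G t ∧
    Tendsto v atTop (@nhds G t 0)

def TChar {X : Type} [AddCommGroup X] [TopologicalSpace X] (H : AddSubgroup X) : Prop :=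
  ∃ v : ℕ → X →ₜ+ T, TSeq v ∧ (H : Set X) = sv v

def Autochar (Y : Type) [AddCommGroup Y] [TopologicalSpace Y] : Prop :=
  ∃ u : ℕ → Y →ₜ+ T, ¬ (∀ᶠ n in atTop, u n = 0) ∧ sv u = univ

def DirectSummand {X : Type} [AddCommGroup X] [TopologicalSpace X] (H : AddSubgroup X) : Prop :=
  ∃ Z : AddSubgroup X, IsHomeomorph fun p : H × Z => (p.1 : X) + p.2

lemma TSeq.ev {X : Type} [AddCommGroup X] [TopologicalSpace X] {v : ℕ → X →ₜ+ T} (hv : TSeq v)
    (m k : ℕ) (z : X) (hk : 0 < k) (hz : k • z = 0)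
    (h : ∀ w : X →ₜ+ T, (m • w) z = 0 → m • w = 0) : ∀ᶠ n in atTop, m • v n = 0 := by
  obtain ⟨t, h1, h2, h3⟩ := hv
  have h4 : (range fun w : X →ₜ+ T => m • w).Finite := by
    refine Finite.of_finite_image (f := fun w => w z) ((AddCircle.finite_torsion 1 hk).subset ?_) ?_
    · rintro _ ⟨w, -, rfl⟩
      exact (map_nsmul w k z).symm.trans (hz ▸ map_zero w)
    · rintro _ ⟨w, rfl⟩ _ ⟨w', rfl⟩ h5
      refine sub_eq_zero.1 ((smul_sub m w w').symm.trans (h _ ?_))
      rw [smul_sub]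
      exact sub_eq_zero.2 h5
  filter_upwards [(h3.nsmul m).eventually ((h4.sdiff (t := {0})).isClosed.isOpen_compl.mem_nhds
    (by simp))] with n hn
  exact by_contra fun c => hn ⟨⟨_, rfl⟩, c⟩

lemma nsmul_apply {X : Type} [AddCommGroup X] [TopologicalSpace X] (w : X →ₜ+ T) (m : ℕ) (x : X) :
    (m • w) x = w (m • x) := by
  induction m with
  | zero => simp
  | succ m ih => rw [succ_nsmul, succ_nsmul, map_add, ← ih]; rfl

def X : Type := (ℕ →₀ ZMod 3) × ZMod 2
noncomputable instance : AddCommGroup X := inferInstanceAs (AddCommGroup ((ℕ →₀ ZMod 3) × ZMod 2))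
instance : TopologicalSpace X := ⊥
instance : DiscreteTopology X := ⟨rfl⟩

theorem result : ∃ (X : Type) (_ : AddCommGroup X) (_ : TopologicalSpace X)
    (_ : IsTopologicalAddGroup X) (H : AddSubgroup X), T2Space X ∧ IsOpen (H : Set X) ∧
      H.FiniteIndex ∧ Autochar H ∧ DirectSummand H ∧ ¬ TChar H := by
  let p : X →+ ZMod 2 := AddMonoidHom.snd _ _
  let q : X →+ (ℕ →₀ ZMod 3) := AddMonoidHom.fst _ _
  refine ⟨X, inferInstance, inferInstance, inferInstance, p.ker, inferInstance, isOpen_discrete _,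
    inferInstance, ⟨fun n => ⟨(ZMod.toAddCircle.comp ((Finsupp.applyAddHom n).comp q)).comp
      p.ker.subtype, continuous_of_discreteTopology⟩, fun h => ?_, eq_univ_of_forall fun x => ?_⟩,
    ⟨q.ker, ?_⟩, fun ⟨v, h1, h2⟩ => ?_⟩
  · obtain ⟨n, hn⟩ := h.exists
    have : ZMod.toAddCircle ((Finsupp.single n (1 : ZMod 3)) n) = 0 :=
      DFunLike.congr_fun hn ⟨(Finsupp.single n 1, 0), rfl⟩
    simp at this
  · refine tendsto_const_nhds.congr' ?_
    filter_upwards [Nat.cofinite_eq_atTop ▸ x.1.1.support.finite_toSet.compl_mem_cofinite] with n hn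
    show 0 = ZMod.toAddCircle (x.1.1 n)
    rw [Finsupp.notMem_support_iff.1 hn, map_zero]
  · refine ⟨continuous_of_discreteTopology, fun _ _ => isOpen_discrete _, ?_,
      fun x => ⟨(⟨(x.1, 0), rfl⟩, ⟨(0, x.2), rfl⟩), Prod.ext (add_zero _) (zero_add _)⟩⟩
    rintro ⟨⟨⟨a, a'⟩, ha⟩, ⟨⟨b', b⟩, hb⟩⟩ ⟨⟨⟨c, c'⟩, hc⟩, ⟨⟨d', d⟩, hd⟩⟩ h
    obtain rfl : a' = 0 := ha
    obtain rfl : b' = 0 := hb
    obtain rfl : c' = 0 := hc
    obtain rfl : d' = 0 := hd
    obtain rfl : a = c := by simpa using (show a + 0 = c + 0 from congrArg Prod.fst h)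
    obtain rfl : b = d := by simpa using (show 0 + b = 0 + d from congrArg Prod.snd h)
    rfl
  · let z : X := (0, 1)
    have h3 : ∀ x : X, 3 • x = 0 ∨ 3 • x = 3 • z := fun x => by
      have : 3 • x.1 = 0 := Finsupp.ext fun i => (by decide : ∀ a : ZMod 3, 3 • a = 0) (x.1 i)
      exact ((by decide : ∀ a : ZMod 2, 3 • a = 0 ∨ 3 • a = 3 • 1) x.2).imp (Prod.ext this)
        (Prod.ext (this.trans (smul_zero 3).symm))
    have h4 : z ∈ sv v := tendsto_const_nhds.congr' ((h1.ev 3 2 z two_pos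
      (Prod.ext (smul_zero 2) rfl) fun w hw => ContinuousAddMonoidHom.ext fun x => by
        rw [nsmul_apply] at *
        rcases h3 x with h | h <;> rw [h]
        exacts [map_zero w, hw]).mono fun n hn => by
          have := DFunLike.congr_fun hn z
          rw [nsmul_apply, show 3 • z = z from Prod.ext (smul_zero 3) rfl] at this
          exact this.symm)
    exact absurd (show (1 : ZMod 2) = 0 from (h2 ▸ h4 : z ∈ (p.ker : Set X))) (by decide)

end Pool.Agent.Results.MP_67c2f3_gt.Counter
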